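import Pool.Agent.AFree.LinIm

/-!
# MP_e44b8a_al: automorphisms of `Aut K⟨x₁,x₂,x₃⟩` which keep a torus element diagonalizable
-/

namespace Pool.Agent.Results.MP_e44b8a_al.TorusRigidity

noncomputable section

/-- the free associative algebra on three generators -/
abbrev A (K : Type) [Field K] : Type := FreeAlgebra K (Fin 3)

/-- its group of `K`-algebra automorphisms -/
abbrev G (K : Type) [Field K] : Type := A K ≃ₐ[K] A K

variable {K : Type} [Field K]

/-- the generators -/
abbrev x (i : Fin 3) : A K := FreeAlgebra.ι K i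

/-- diagonal automorphisms -/
def IsDiagonal (g : G K) : Prop := ∀ i, ∃ t : K, g (x i) = t • x i

/-- linear automorphisms -/
def IsLinear (g : G K) : Prop := ∀ i, g (x i) ∈ Submodule.span K (Set.range x)

/-- affine automorphisms -/
def IsAffine (g : G K) : Prop := ∀ i, g (x i) ∈ Submodule.span K (insert 1 (Set.range x))

/-- the subalgebra generated by the variables other than `x_i` -/
def Others (i : Fin 3) : Subalgebra K (A K) := Algebra.adjoin K (x '' {i}ᶜ)

/-- `g` is the elementary automorphism `x_i ↦ x_i + f`, where `f` does not involve `x_i` -/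
def IsElementary (i : Fin 3) (f : A K) (g : G K) : Prop :=
  f ∈ Others i ∧ g (x i) = x i + f ∧ ∀ j, j ≠ i → g (x j) = x j

/-- `g` maps `x_k` into `K[x_k]` and each other variable to a combination of elements
`a * x_j * b` with `j ≠ k` and `a`, `b` in `K[x_k]` -/
def IsBilinear (k : Fin 3) (g : G K) : Prop :=
  g (x k) ∈ Algebra.adjoin K {x k} ∧ ∀ i, i ≠ k → g (x i) ∈ Submodule.span K
    {p | ∃ a ∈ Algebra.adjoin K {x (K := K) k}, ∃ b ∈ Algebra.adjoin K {x (K := K) k},
      ∃ j, j ≠ k ∧ p = a * x j * b}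

/-- the group generated by the affine automorphisms and the elementary automorphisms `x_i ↦ x_i + f` with `f` in
one variable -/
def OneVariable (K : Type) [Field K] : Subgroup (G K) :=
  Subgroup.closure {g | IsAffine g ∨ ∃ i j f, j ≠ i ∧ f ∈ Algebra.adjoin K {x (K := K) j} ∧
    IsElementary i f g}

/-- the group of the tame automorphisms -/
def Tame (K : Type) [Field K] : Subgroup (G K) :=
  Subgroup.closure {g | IsAffine g ∨ ∃ i f, IsElementary i f g}

/-- the group generated by the tame automorphisms and the automorphisms with `IsBilinear` -/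
def Large (K : Type) [Field K] : Subgroup (G K) :=
  Subgroup.closure {g | IsAffine g ∨ (∃ i f, IsElementary i f g) ∨ ∃ k, IsBilinear k g}

/-- the abelianization -/
def ab : A K →ₐ[K] MvPolynomial (Fin 3) K := FreeAlgebra.lift K MvPolynomial.X

/-- `α i` is additive and linear on the subalgebra without `x_i`, it is the identity modulo commutators, and it
commutes with the members of `OneVariable` which map `x_i` to `x_j` and the other variables into the algebra
without `x_j` -/
def IsTwist (α : Fin 3 → A K → A K) : Prop :=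
  (∀ i, ∀ f ∈ Others i, α i f ∈ Others i ∧ ab (α i f) = ab f) ∧
    (∀ i, ∀ f ∈ Others i, ∀ f' ∈ Others i, α i (f + f') = α i f + α i f') ∧
    (∀ i, ∀ f ∈ Others i, ∀ c : K, α i (c • f) = c • α i f) ∧
    ∀ i j, ∀ γ ∈ OneVariable K, γ (x i) = x j → (∀ f ∈ Others i, γ f ∈ Others j) →
      ∀ f ∈ Others i, α j (γ f) = γ (α i f)

/-- `Φ` is the conjugation by the semilinear ring automorphism `σ` on `OneVariable`, and modulo commutators on
`Large`; on elementary automorphisms it is this conjugation up to a twist `f ↦ α i f`, and composed with the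
inverse conjugation it preserves the tame automorphisms and the wild ones -/
def Standard (Φ : G K ≃* G K) : Prop :=
  ∃ (σ : A K ≃+* A K) (τ : K ≃+* K), (∀ (c : K) (a : A K), σ (c • a) = τ c • σ a) ∧
    (∀ g ∈ OneVariable K, ∀ a, Φ g a = σ (g (σ.symm a))) ∧
    (∀ g ∈ Large K, ∀ a, ab (Φ g a) = ab (σ (g (σ.symm a)))) ∧
    (∃ α, IsTwist (K := K) α ∧ ∀ i f g, IsElementary i f g →
      ∃ g', IsElementary i (α i f) g' ∧ ∀ a, Φ g a = σ (g' (σ.symm a))) ∧
    ∀ g g' : G K, (∀ a, Φ g a = σ (g' (σ.symm a))) → (g ∈ Tame K ↔ g' ∈ Tame K)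

open AFree in
theorem aff_iff {g : G K} : IsAffine g ↔ IsAff g := by
  have h1 : ∀ p : A K, p ∈ Submodule.span K (insert 1 (Set.range x)) ↔
      ∃ (c : K) (m : Fin 3 → K), p = c • 1 + ∑ j, m j • x j := by
    intro p
    rw [Submodule.mem_span_insert]
    constructor
    · rintro ⟨c, z, hz, rfl⟩
      obtain ⟨m, rfl⟩ := (Submodule.mem_span_range_iff_exists_fun K).1 hz
      exact ⟨c, m, rfl⟩
    · rintro ⟨c, m, rfl⟩
      exact ⟨c, _, (Submodule.mem_span_range_iff_exists_fun K).2 ⟨m, rfl⟩, rfl⟩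
  exact forall_congr' fun i => h1 _

open AFree in
theorem mem_Bi {i : Fin 3} {f : A K} : f ∈ Others i ↔ f ∈ Bi K i := by
  unfold Others
  constructor
  · intro h
    induction h using Algebra.adjoin_induction with
    | mem p hp =>
      obtain ⟨j, hj, rfl⟩ := hp
      exact X_mem hj
    | algebraMap r =>
      rw [Algebra.algebraMap_eq_smul_one]
      exact Submodule.smul_mem _ _ (one_mem i)
    | add p q _ _ hp hq => exact Submodule.add_mem _ hp hq
    | mul p q _ _ hp hq => exact Bi_mul hp hq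
  · intro h
    refine sp_induct (P := fun w => i ∉ w) (Q := fun f => f ∈ Algebra.adjoin K (x '' {i}ᶜ))
      (Subalgebra.zero_mem _) (fun p q _ _ hp hq => Subalgebra.add_mem _ hp hq)
      (fun w c hw => Subalgebra.smul_mem _ ?_ c) h
    induction w with
    | nil => exact Subalgebra.one_mem _
    | cons j w ih =>
      rw [mon_cons]
      refine Subalgebra.mul_mem _ (Algebra.subset_adjoin ⟨j, ?_, rfl⟩)
        (ih fun h => hw (List.mem_cons_of_mem _ h))
      rintro rfl
      exact hw List.mem_cons_self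

open AFree in
theorem elem_iff {i : Fin 3} {f : A K} {g : G K} :
    IsElementary i f g ↔ f ∈ Bi K i ∧ g = el i f := by
  constructor
  · rintro ⟨hf, h1, h2⟩
    exact ⟨mem_Bi.1 hf, eq_el (mem_Bi.1 hf) h1 h2⟩
  · rintro ⟨hf, rfl⟩
    exact ⟨mem_Bi.2 hf, el_self hf, fun j hj => el_ne f hj⟩

open AFree in
theorem tame_eq : Tame K = Tm' K := by
  unfold Tame Tm'
  congr 1
  ext g
  change (IsAffine g ∨ ∃ i f, IsElementary i f g) ↔ (IsAff g ∨ ∃ i, ∃ f ∈ Bi K i, g = el i f)
  rw [aff_iff]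
  refine or_congr Iff.rfl (exists_congr fun i => exists_congr fun f => ?_)
  rw [elem_iff]

open AFree in
theorem adj_Lk0 {k : Fin 3} {a : A K} (h : a ∈ Algebra.adjoin K {x (K := K) k}) :
    a ∈ Lk K k 0 := by
  induction h using Algebra.adjoin_induction with
  | mem p hp =>
    rw [Set.mem_singleton_iff.1 hp]
    exact X_Lk0 k
  | algebraMap r =>
    rw [Algebra.algebraMap_eq_smul_one]
    exact Submodule.smul_mem _ _ (one_Lk0 k)
  | add p q _ _ hp hq => exact Submodule.add_mem _ hp hq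
  | mul p q _ _ hp hq => exact Lk_mul (a := 0) (b := 0) hp hq

open AFree in
theorem bil_Ck {k : Fin 3} {g : G K} (h : IsBilinear k g) : Ck k g := by
  intro i
  by_cases hi : i = k
  · rw [if_pos hi, hi]
    exact adj_Lk0 h.1
  · rw [if_neg hi]
    have h1 := h.2 i hi
    refine (Submodule.span_le (p := Lk K k 1)).2 ?_ h1
    rintro p ⟨a, ha, b, hb, j, hj, rfl⟩
    have hX : X (K := K) j ∈ Lk K k 1 := by
      rw [← mon_single]
      refine mon_mem_sp (P := fun w => ct k w = 1) ?_
      rw [ct_cons, ct_nil, if_neg hj]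
    exact Lk_mul (a := 1) (b := 0) (Lk_mul (a := 0) (b := 1) (adj_Lk0 ha) hX) (adj_Lk0 hb)

open AFree in
theorem one_le : OneVariable K ≤ Pa K := by
  unfold OneVariable
  rw [Subgroup.closure_le]
  rintro g (hg | ⟨i, j, f, hj, hf, hg⟩)
  · exact Subgroup.subset_closure (Or.inl (aff_iff.1 hg))
  · rw [Algebra.adjoin_singleton_eq_range_aeval] at hf
    obtain ⟨P, rfl⟩ := hf
    exact Subgroup.subset_closure (Or.inr ⟨i, j, hj, P, (elem_iff.1 hg).2⟩)

open AFree in
theorem large_le : Large K ≤ Pb K := by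
  unfold Large
  rw [Subgroup.closure_le]
  rintro g (hg | ⟨i, f, hg⟩ | ⟨k, hg⟩)
  · exact Subgroup.subset_closure (Or.inl (aff_iff.1 hg))
  · exact Subgroup.subset_closure (Or.inr (Or.inl ⟨i, f, (elem_iff.1 hg).1, (elem_iff.1 hg).2⟩))
  · exact Subgroup.subset_closure (Or.inr (Or.inr ⟨k, bil_Ck hg⟩))

open AFree in
theorem standard_of {Φ : G K ≃* G K} (h : Concl Φ) : Standard Φ := by
  obtain ⟨σ, τ, hσ, h1, h2, ⟨α, hα, hadd, hsmul, hγ⟩, h4⟩ := h
  refine ⟨σ, τ, hσ, fun g hg => h1 g (one_le hg), fun g hg => h2 g (large_le hg),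
    ⟨α, ⟨?_, ?_, ?_, ?_⟩, ?_⟩, ?_⟩
  · intro i f hf
    have h5 := hα i f (mem_Bi.1 hf)
    exact ⟨mem_Bi.2 h5.1, h5.2.1⟩
  · exact fun i f hf f' hf' => hadd i f (mem_Bi.1 hf) f' (mem_Bi.1 hf')
  · exact fun i f hf c => hsmul i f (mem_Bi.1 hf) c
  · exact fun i j γ hγ1 hγX hγB f hf => hγ i j γ (one_le hγ1) hγX
      (fun f hf => mem_Bi.1 (hγB f (mem_Bi.2 hf))) f (mem_Bi.1 hf)
  · intro i f g hg
    obtain ⟨hf, rfl⟩ := elem_iff.1 hg
    have h5 := hα i f hf
    exact ⟨el i (α i f), elem_iff.2 ⟨h5.1, rfl⟩, h5.2.2⟩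
  · intro g g' hg
    rw [tame_eq]
    exact h4 g g' hg

open AFree in
theorem diag_iff {g : G K} : IsDiagonal g ↔ IsDg g := by
  constructor
  · intro h
    refine diag_of fun l w hw => ?_
    obtain ⟨t, ht⟩ := h l
    by_contra h1
    apply hw
    rw [show g (X l) = t • X l from ht, cf_smul, cf_X, if_neg (fun h2 => h1 h2.symm), mul_zero]
  · rintro ⟨s, rfl⟩ i
    exact ⟨s i, dg_X s i⟩

open AFree in
theorem lin_iff {g : G K} : IsLinear g ↔ IsLn g := by
  constructor
  · intro h l w hw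
    obtain ⟨m, hm⟩ := (Submodule.mem_span_range_iff_exists_fun K).1 (h l)
    refine cf_emb_ne m (w := w) ?_
    have h1 : emb m = g (X l) := hm
    rw [h1]
    exact hw
  · intro h l
    have h1 := eq_emb (h l)
    exact (Submodule.mem_span_range_iff_exists_fun K).2 ⟨fun j => cf (g (X l)) [j], h1.symm⟩

/-- Let `K` be infinite and `Φ` an automorphism of the group `Aut K⟨x₁,x₂,x₃⟩`. Suppose there is a set `S` of
diagonal automorphisms and an automorphism `η` such that (a) the centralizer of `S` consists of diagonal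
automorphisms and `η⁻¹ Φ(S) η` as well, or (b) `K` has not characteristic `2`, the centralizer of `S` consists of
diagonal automorphisms and `η⁻¹ Φ(S) η` of linear ones, or (c) `K` has not characteristic `2`, the centralizer of
`S` consists of linear automorphisms and `η⁻¹ Φ(S) η` of diagonal ones. Then `Φ` is standard. -/
theorem result (K : Type) [Field K] [Infinite K] (Φ : G K ≃* G K) (S : Set (G K))
    (hS : ∀ s ∈ S, IsDiagonal s) (η : G K)
    (h : ((∀ g : G K, (∀ s ∈ S, g * s = s * g) → IsDiagonal g) ∧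
        ∀ s ∈ S, IsDiagonal (η⁻¹ * Φ s * η)) ∨
      ((2 : K) ≠ 0 ∧ (∀ g : G K, (∀ s ∈ S, g * s = s * g) → IsDiagonal g) ∧
        ∀ s ∈ S, IsLinear (η⁻¹ * Φ s * η)) ∨
      ((2 : K) ≠ 0 ∧ (∀ g : G K, (∀ s ∈ S, g * s = s * g) → IsLinear g) ∧
        ∀ s ∈ S, IsDiagonal (η⁻¹ * Φ s * η))) :
    Standard Φ := by
  apply standard_of
  obtain ⟨R, hR⟩ : ∃ R : Set (Fin 3 → Kˣ), R = {t | AFree.dg t ∈ S} := ⟨_, rfl⟩
  have hmem : ∀ t, t ∈ R ↔ AFree.dg t ∈ S := fun t => by
    rw [hR]
    exact Iff.rfl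
  have hcen : ∀ g : G K, (∀ t ∈ R, g * AFree.dg t = AFree.dg t * g) → ∀ s ∈ S, g * s = s * g := by
    intro g hg s hs
    obtain ⟨t, rfl⟩ := diag_iff.1 (hS s hs)
    exact hg t ((hmem t).2 hs)
  rcases h with ⟨h1, h2⟩ | ⟨h0, h1, h2⟩ | ⟨h0, h1, h2⟩
  · exact AFree.concl_dd (S := R) (fun g hg => diag_iff.1 (h1 g (hcen g hg))) η
      fun t ht => diag_iff.1 (h2 _ ((hmem t).1 ht))
  · exact AFree.concl_dl h0 (S := R) (fun g hg => diag_iff.1 (h1 g (hcen g hg))) η
      fun t ht => lin_iff.1 (h2 _ ((hmem t).1 ht))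
  · exact AFree.concl_ld h0 (S := R) (fun g hg => lin_iff.1 (h1 g (hcen g hg))) η
      fun t ht => diag_iff.1 (h2 _ ((hmem t).1 ht))

end

end Pool.Agent.Results.MP_e44b8a_al.TorusRigidity
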